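import Mathlib

/-!
# Arithmetic modular links: the definitions used in the statement

* `T1M` = `SL(2,ℤ) \ SL(2,ℝ)`, the unit tangent bundle of the modular surface,
* `lift A` = canonical lift of the closed geodesic of a hyperbolic `A ∈ SL(2,ℤ)`,
* `modularLink`, `IsModularLink` = modular links,
* `H3` = hyperbolic 3-space = positive definite Hermitian 2×2 matrices of determinant one,
* `HasHolonomy X Γ` = `X` is the complete hyperbolic manifold with holonomy group `Γ`,
* `SLO d` = `SL(2, O_d)`, `IsArithmeticOfType`.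
-/

set_option linter.style.longLine false

open Matrix Topology
open scoped MatrixGroups ComplexConjugate ComplexOrder

namespace Pool.AML

noncomputable section

/-! ### The unit tangent bundle of the modular surface and canonical lifts -/

/-- `SL(2,ℤ)` as a subgroup of `SL(2,ℝ)`. -/
def SL2Z : Subgroup SL(2, ℝ) := (SpecialLinearGroup.map (n := Fin 2) (Int.castRingHom ℝ)).range

/-- The unit tangent bundle of the modular surface: `PSL(2,ℤ) \ PSL(2,ℝ) = SL(2,ℤ) \ SL(2,ℝ)`;
the class of `g` is the unit tangent vector at `g • i` pointing to `g • ∞`. -/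
abbrev T1M : Type := Quotient (QuotientGroup.rightRel SL2Z)

/-- Canonical lift (closed orbit of the geodesic flow `g ↦ g * diag(λ, λ⁻¹)`) of the oriented closed
geodesic of `A`, running from the repelling to the attracting fixed point of `A`. -/
def lift (A : SL(2, ℤ)) : Set T1M :=
  {x | ∃ g : SL(2, ℝ), ∃ l : ℝ, 1 < l ∧ x = Quotient.mk _ g ∧
    (A.1.map (Int.cast : ℤ → ℝ)) * g.1 = g.1 * !![l, 0; 0, l⁻¹]}

/-- the modular link of a finite set of hyperbolic elements. -/
def modularLink (S : Finset SL(2, ℤ)) : Set T1M := ⋃ A ∈ S, lift A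

/-! ### Hyperbolic space -/

/-- Hyperbolic 3-space: positive definite Hermitian matrices of determinant one. -/
def H3 : Type := {H : Matrix (Fin 2) (Fin 2) ℂ // H.PosDef ∧ H.det = 1}

instance : TopologicalSpace H3 := inferInstanceAs
  (TopologicalSpace {H : Matrix (Fin 2) (Fin 2) ℂ // H.PosDef ∧ H.det = 1})

theorem act_mem (g : SL(2, ℂ)) (H : H3) :
    (g.1 * H.1 * g.1ᴴ).PosDef ∧ (g.1 * H.1 * g.1ᴴ).det = 1 := by
  refine ⟨?_, ?_⟩
  · have hu : IsUnit g.1 := by
      rw [Matrix.isUnit_iff_isUnit_det, g.2]; exact isUnit_one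
    exact (Matrix.IsUnit.posDef_star_right_conjugate_iff hu).2 H.2.1
  · rw [det_mul, det_mul, det_conjTranspose, g.2, H.2.2]; simp

/-- the action `H ↦ g H gᴴ` of `SL(2,ℂ)` on hyperbolic space. -/
instance : MulAction SL(2, ℂ) H3 where
  smul g H := ⟨g.1 * H.1 * g.1ᴴ, act_mem g H⟩
  one_smul H := Subtype.ext (by
    change (1 : SL(2, ℂ)).1 * H.1 * (1 : SL(2, ℂ)).1ᴴ = H.1
    simp)
  mul_smul g h H := Subtype.ext (by
    change (g * h).1 * H.1 * (g * h).1ᴴ = g.1 * (h.1 * H.1 * h.1ᴴ) * g.1ᴴ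
    simp [Matrix.conjTranspose_mul, Matrix.mul_assoc])

/-! ### Statement -/

/-- `A` is hyperbolic with positive trace and primitive in `PSL(2,ℤ)` (conjugacy classes of such `A` correspond to the
oriented primitive closed geodesics of the modular surface). -/
def IsPrimHyp (A : SL(2, ℤ)) : Prop :=
  2 < A.1.trace ∧ ∀ (B : SL(2, ℤ)) (n : ℕ), (A = B ^ n ∨ A = -(B ^ n)) → n = 1

/-- `L` is a modular link: the union of the canonical lifts of finitely many (at least one) distinct oriented primitive closed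
geodesics. -/
def IsModularLink (L : Set T1M) : Prop :=
  ∃ S : Finset SL(2, ℤ), S.Nonempty ∧ (∀ A ∈ S, IsPrimHyp A) ∧ (∀ A ∈ S, ∀ B ∈ S, IsConj A B → A = B) ∧
    L = modularLink S

/-- `X` is homeomorphic to the complete hyperbolic manifold `Γ \ H3`: the group `Γ` acts freely (modulo `±1`) and properly
discontinuously on hyperbolic space, and `X` is homeomorphic to the quotient. -/
def HasHolonomy (X : Type) [TopologicalSpace X] (Γ : Subgroup SL(2, ℂ)) : Prop :=
  (∀ γ ∈ Γ, ∀ x : H3, γ • x = x → γ = 1 ∨ γ = -1) ∧ ProperlyDiscontinuousSMul Γ H3 ∧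
    Nonempty (X ≃ₜ MulAction.orbitRel.Quotient Γ H3)

/-- `SL(2, O_d)`, `O_d` the ring of integers of `ℚ(√-d)`. -/
def SLO (d : ℕ) : Subgroup SL(2, ℂ) where
  carrier := {g | ∀ i j, IsIntegral ℤ (g.1 i j) ∧
    g.1 i j ∈ IntermediateField.adjoin ℚ {Complex.I * (Real.sqrt d : ℂ)}}
  mul_mem' {a b} ha hb i j := by
    have h : (a * b).1 i j = a.1 i 0 * b.1 0 j + a.1 i 1 * b.1 1 j := by
      change (a.1 * b.1) i j = _
      rw [Matrix.mul_apply, Fin.sum_univ_two]
    rw [h]
    exact ⟨((ha i 0).1.mul (hb 0 j).1).add ((ha i 1).1.mul (hb 1 j).1),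
      add_mem (mul_mem (ha i 0).2 (hb 0 j).2) (mul_mem (ha i 1).2 (hb 1 j).2)⟩
  one_mem' i j := by
    change IsIntegral ℤ ((1 : Matrix (Fin 2) (Fin 2) ℂ) i j) ∧
      (1 : Matrix (Fin 2) (Fin 2) ℂ) i j ∈ IntermediateField.adjoin ℚ {Complex.I * (Real.sqrt d : ℂ)}
    by_cases h : i = j
    · subst h; rw [Matrix.one_apply_eq]; exact ⟨isIntegral_one, one_mem _⟩
    · rw [Matrix.one_apply_ne h]; exact ⟨isIntegral_zero, zero_mem _⟩
  inv_mem' {a} ha i j := by
    change IsIntegral ℤ (a.1.adjugate i j) ∧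
      a.1.adjugate i j ∈ IntermediateField.adjoin ℚ {Complex.I * (Real.sqrt d : ℂ)}
    rw [Matrix.adjugate_fin_two]
    fin_cases i <;> fin_cases j
    · exact ha 1 1
    · exact ⟨(ha 0 1).1.neg, neg_mem (ha 0 1).2⟩
    · exact ⟨(ha 1 0).1.neg, neg_mem (ha 1 0).2⟩
    · exact ha 0 0

/-- the link `L` is arithmetic with group conjugate to a group commensurable with `PSL(2, O_d)`. -/
def IsArithmeticOfType (L : Set T1M) (d : ℕ) : Prop :=
  ∃ Γ : Subgroup SL(2, ℂ), HasHolonomy {x : T1M // x ∉ L} Γ ∧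
    ∃ g : SL(2, ℂ), Subgroup.Commensurable (Γ.map (MulAut.conj g).toMonoidHom) (SLO d)

end

end Pool.AML
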