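import Pool.Agent.AML.Basic

/-!
# Arithmetic modular links: `ℤ[√-2]` and the combinatorial data (levels, flags) used by the proof
-/

set_option linter.style.longLine false

open Matrix Topology
open scoped MatrixGroups ComplexConjugate ComplexOrder

namespace Pool.AML

noncomputable section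

/-- `ℤ[√-2]`, the ring of integers of `ℚ(√-2)`. -/
abbrev O2 : Type := ℤ√(-2)

theorem toC_aux : (Complex.I * (Real.sqrt 2 : ℂ)) * (Complex.I * (Real.sqrt 2 : ℂ)) = ((-2 : ℤ) : ℂ) := by
  have h : ((Real.sqrt 2 : ℝ) : ℂ) * ((Real.sqrt 2 : ℝ) : ℂ) = 2 := by
    rw [← Complex.ofReal_mul, Real.mul_self_sqrt (by norm_num)]; norm_num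
  calc _ = (Complex.I * Complex.I) * (((Real.sqrt 2 : ℝ) : ℂ) * ((Real.sqrt 2 : ℝ) : ℂ)) := by ring
    _ = _ := by rw [h, Complex.I_mul_I]; norm_num

/-- the embedding `ℤ[√-2] → ℂ`, `x + y√-2 ↦ x + y i √2`. -/
def toC : O2 →+* ℂ := Zsqrtd.lift ⟨Complex.I * (Real.sqrt 2 : ℂ), toC_aux⟩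

/-- `SL(2, ℤ[√-2]) → SL(2, ℂ)`. -/
def slC : SL(2, O2) →* SL(2, ℂ) := SpecialLinearGroup.map (n := Fin 2) toC

/-! ### Combinatorial data -/

/-- the 54 matrices `(a, b; c, d)` whose axis crosses the Farey triangle `(0, 1, ∞)`, in the cyclic
order of the attracting fixed points, starting at `0`. -/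
def levTab : List (ℤ × ℤ × ℤ × ℤ) := [
  (-1, 2, -6, 11), (1, 2, 4, 9), (0, 1, -1, 4), (3, 2, 10, 7), (-3, 4, -10, 13), (1, 1, 2, 3), (5,
  2, 12, 5), (-1, 2, -3, 5), (1, 4, 2, 9), (-1, 6, -2, 11), (2, 1, 3, 2), (-7, 10, -12, 17), (-1,
  3, -2, 5), (7, 2, 10, 3), (-7, 12, -10, 17), (1, 2, 1, 3), (-3, 10, -4, 13), (5, 4, 6, 5), (5,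
  6, 4, 5), (13, -4, 10, -3), (3, 1, 2, 1), (17, -10, 12, -7), (3, 10, 2, 7), (5, -2, 3, -1), (17,
  -12, 10, -7), (2, 3, 1, 2), (11, -2, 6, -1), (9, 2, 4, 1), (5, -3, 2, -1), (5, 12, 2, 5), (3, 2,
  1, 1), (13, -10, 4, -3), (7, 10, 2, 3), (4, -1, 1, 0), (9, 4, 2, 1), (11, -6, 2, -1), (9, -4,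
  -2, 1), (7, -10, -2, 3), (3, -2, -1, 1), (5, -12, -2, 5), (9, -2, -4, 1), (2, -3, -1, 2), (3,
  -10, -2, 7), (3, -1, -2, 1), (5, -6, -4, 5), (5, -4, -6, 5), (1, -2, -1, 3), (7, -2, -10, 3),
  (2, -1, -3, 2), (1, -4, -2, 9), (5, -2, -12, 5), (1, -1, -2, 3), (3, -2, -10, 7), (1, -2, -4, 9)]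

/-- matrix of the level `k`. -/
def levMat (k : Fin 54) : ℤ × ℤ × ℤ × ℤ := levTab.getD k (0, 0, 0, 0)

/-- the attracting fixed point of `(a, b; c, d)`. -/
def attr (m : ℤ × ℤ × ℤ × ℤ) : ℝ :=
  ((m.1 : ℝ) - m.2.2.2 + Real.sqrt (((m.1 : ℝ) + m.2.2.2) ^ 2 - 4)) / (2 * m.2.2.1)

/-- the `k`-th level. -/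
def lev (k : Fin 54) : ℝ := attr (levMat k)

/-- index of the level `lev k + 1`, for the levels `k` whose line crosses the edge `(0, ∞)`;
`54` for the other levels. -/
def tTab : List ℕ := [
  54, 18, 54, 19, 54, 20, 21, 54, 22, 54, 23, 54, 54, 24, 54, 25, 54, 26, 27, 54, 28, 54, 29, 54,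
  54, 30, 54, 31, 54, 32, 33, 54, 34, 54, 35, 54, 37, 39, 41, 42, 44, 46, 49, 51, 53, 0, 2, 4, 7,
  9, 11, 12, 14, 16]

/-- the line of level `k` crosses the edge `(0, ∞)`. -/
def cr (k : Fin 54) : Bool := tTab.getD k 54 < 54

/-- index of `lev k + 1` for `cr k` (junk `k` otherwise). -/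
def tt (k : Fin 54) : Fin 54 := if h : tTab.getD k 54 < 54 then ⟨tTab.getD k 54, h⟩ else k

/-- index of `lev k - 1` for the levels `k` whose line crosses the edge `(1, ∞)`. -/
def tinv (k : Fin 54) : Option (Fin 54) := (List.finRange 54).find? (fun j => cr j && (tt j == k))

/-- Flags: `(side, a)`, `side = true` for the left side (near the edge `(0, ∞)`), `false` for the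
right side (near the edge `(1, ∞)`), `a` = arc between two consecutive half integers `a/2, (a+1)/2`. -/
abbrev Flag : Type := Bool × Fin 108

/-- the integer node (level) of the arc `a`: `⌈a/2⌉ mod 54`. -/
def nodeC (a : Fin 108) : Fin 54 := ⟨((a.1 + 1) / 2) % 54, Nat.mod_lt _ (by norm_num)⟩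

/-- the other arc of the same kind side: arc `2k` (`up = true`) or `2k-1` at the level `k`. -/
def arcAt (k : Fin 54) (up : Bool) : Fin 108 :=
  if up then ⟨(2 * k.1) % 108, Nat.mod_lt _ (by norm_num)⟩
  else ⟨(2 * k.1 + 107) % 108, Nat.mod_lt _ (by norm_num)⟩

/-- `a` even. -/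
def isUp (a : Fin 108) : Bool := a.1 % 2 == 0

/-- The four involutions on flags; types `0 = ∞`, `1 = M`, `2 = B`, `3 = c`. -/
def fl (p : Flag) (X : Fin 4) : Flag :=
  match X with
  | 0 => if p.1 then (false, p.2 - 36) else (true, p.2 + 36)
  | 1 => (!p.1, p.2)
  | 2 =>
    let k := nodeC p.2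
    let up := isUp p.2
    if p.1 then
      (if cr k then (false, arcAt (tt k) up) else (true, arcAt k (!up)))
    else
      (match tinv k with
        | some j => (true, arcAt j up)
        | none => (false, arcAt k (!up)))
  | 3 => (p.1, if isUp p.2 then p.2 + 1 else p.2 - 1)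

/-- vectors `u0, u1, uc` of the corners. -/
def v0Tab : List (O2 × O2) := [
  (⟨1, 0⟩, ⟨2, 0⟩), (⟨1, 0⟩, ⟨2, 0⟩), (⟨1, -1⟩, ⟨2, -1⟩), (⟨1, -1⟩, ⟨2, -1⟩), (⟨1, -1⟩, ⟨2, -1⟩),
  (⟨1, -1⟩, ⟨2, -1⟩), (⟨3, -1⟩, ⟨4, 0⟩), (⟨3, -1⟩, ⟨4, 0⟩), (⟨3, -1⟩, ⟨4, 0⟩), (⟨3, -1⟩, ⟨4, 0⟩),
  (⟨1, -2⟩, ⟨3, -1⟩), (⟨1, -2⟩, ⟨3, -1⟩), (⟨3, -1⟩, ⟨3, 1⟩), (⟨3, -1⟩, ⟨3, 1⟩), (⟨3, -1⟩, ⟨3, 1⟩),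
  (⟨3, -1⟩, ⟨3, 1⟩), (⟨-5, -3⟩, ⟨1, -2⟩), (⟨2, 1⟩, ⟨1, -2⟩), (⟨2, 1⟩, ⟨1, -2⟩), (⟨2, 1⟩, ⟨1, -2⟩),
  (⟨1, 1⟩, ⟨3, -1⟩), (⟨1, 1⟩, ⟨3, -1⟩), (⟨1, 1⟩, ⟨3, -1⟩), (⟨1, 1⟩, ⟨3, -1⟩), (⟨1, 1⟩, ⟨3, -1⟩),
  (⟨1, 1⟩, ⟨3, -1⟩), (⟨-1, 1⟩, ⟨3, 2⟩), (⟨-1, 1⟩, ⟨3, 2⟩), (⟨-1, 1⟩, ⟨3, 2⟩), (⟨-1, 1⟩, ⟨3, 2⟩),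
  (⟨1, -1⟩, ⟨4, -3⟩), (⟨1, -1⟩, ⟨4, -3⟩), (⟨1, -1⟩, ⟨4, -3⟩), (⟨1, -1⟩, ⟨4, -3⟩), (⟨1, -4⟩, ⟨4,
  -8⟩), (⟨1, -4⟩, ⟨4, -8⟩), (⟨1, -3⟩, ⟨4, -3⟩), (⟨1, -3⟩, ⟨4, -3⟩), (⟨1, -3⟩, ⟨4, -3⟩), (⟨1, -3⟩,
  ⟨4, -3⟩), (⟨3, 0⟩, ⟨3, 2⟩), (⟨3, 0⟩, ⟨3, 2⟩), (⟨3, 0⟩, ⟨3, 2⟩), (⟨3, 0⟩, ⟨3, 2⟩), (⟨-1, -6⟩, ⟨3,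
  -1⟩), (⟨0, 1⟩, ⟨3, -1⟩), (⟨0, 1⟩, ⟨3, -1⟩), (⟨0, 1⟩, ⟨3, -1⟩), (⟨0, 1⟩, ⟨3, -1⟩), (⟨0, 1⟩, ⟨3,
  -1⟩), (⟨0, -1⟩, ⟨1, -2⟩), (⟨0, -1⟩, ⟨1, -2⟩), (⟨0, -1⟩, ⟨1, -2⟩), (⟨0, -1⟩, ⟨1, -2⟩), (⟨2, 0⟩,
  ⟨3, 1⟩), (⟨2, 0⟩, ⟨3, 1⟩), (⟨2, 0⟩, ⟨3, 1⟩), (⟨2, 0⟩, ⟨3, 1⟩), (⟨-2, -6⟩, ⟨3, -1⟩), (⟨-1, 1⟩,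
  ⟨3, -1⟩), (⟨1, -1⟩, ⟨4, 0⟩), (⟨1, -1⟩, ⟨4, 0⟩), (⟨1, -1⟩, ⟨4, 0⟩), (⟨1, -1⟩, ⟨4, 0⟩), (⟨-3, -5⟩,
  ⟨2, -1⟩), (⟨-1, 0⟩, ⟨2, -1⟩), (⟨-1, 0⟩, ⟨2, -1⟩), (⟨-1, 0⟩, ⟨2, -1⟩), (⟨-1, -4⟩, ⟨2, 0⟩), (⟨-3,
  0⟩, ⟨2, 0⟩), (⟨-3, 0⟩, ⟨2, 0⟩), (⟨3, 4⟩, ⟨2, 0⟩), (⟨3, -1⟩, ⟨2, -1⟩), (⟨5, 4⟩, ⟨2, -1⟩), (⟨3,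
  1⟩, ⟨4, 0⟩), (⟨3, 1⟩, ⟨4, 0⟩), (⟨4, -2⟩, ⟨3, -1⟩), (⟨5, 5⟩, ⟨3, -1⟩), (⟨1, 1⟩, ⟨3, 1⟩), (⟨1, 1⟩,
  ⟨3, 1⟩), (⟨1, -1⟩, ⟨1, -2⟩), (⟨1, -1⟩, ⟨1, -2⟩), (⟨3, -2⟩, ⟨3, -1⟩), (⟨4, 5⟩, ⟨3, -1⟩), (⟨0, 2⟩,
  ⟨3, 2⟩), (⟨0, 2⟩, ⟨3, 2⟩), (⟨3, 0⟩, ⟨4, -3⟩), (⟨3, 0⟩, ⟨4, -3⟩), (⟨3, -4⟩, ⟨4, -8⟩), (⟨3, -4⟩,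
  ⟨4, -8⟩), (⟨3, -2⟩, ⟨4, -3⟩), (⟨3, -2⟩, ⟨4, -3⟩), (⟨4, 1⟩, ⟨3, 2⟩), (⟨4, 1⟩, ⟨3, 2⟩), (⟨2, -2⟩,
  ⟨3, -1⟩), (⟨2, -2⟩, ⟨3, -1⟩), (⟨-1, -3⟩, ⟨1, -2⟩), (⟨6, 1⟩, ⟨1, -2⟩), (⟨0, 2⟩, ⟨3, 1⟩), (⟨0, 2⟩,
  ⟨3, 1⟩), (⟨2, 1⟩, ⟨3, -1⟩), (⟨2, 1⟩, ⟨3, -1⟩), (⟨1, 1⟩, ⟨4, 0⟩), (⟨1, 1⟩, ⟨4, 0⟩), (⟨1, 0⟩, ⟨2,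
  -1⟩), (⟨1, 0⟩, ⟨2, -1⟩), (⟨1, 0⟩, ⟨2, 0⟩), (⟨1, 0⟩, ⟨2, 0⟩)]

def v1Tab : List (O2 × O2) := [
  (⟨3, -2⟩, ⟨4, -3⟩), (⟨3, -2⟩, ⟨4, -3⟩), (⟨3, -2⟩, ⟨4, -3⟩), (⟨3, -2⟩, ⟨4, -3⟩), (⟨4, 1⟩, ⟨3,
  2⟩), (⟨4, 1⟩, ⟨3, 2⟩), (⟨4, 1⟩, ⟨3, 2⟩), (⟨4, 1⟩, ⟨3, 2⟩), (⟨2, -2⟩, ⟨3, -1⟩), (⟨2, -2⟩, ⟨3,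
  -1⟩), (⟨2, -2⟩, ⟨3, -1⟩), (⟨2, -2⟩, ⟨3, -1⟩), (⟨2, -2⟩, ⟨3, -1⟩), (⟨2, -2⟩, ⟨3, -1⟩), (⟨-1, -3⟩,
  ⟨1, -2⟩), (⟨-1, -3⟩, ⟨1, -2⟩), (⟨-1, -3⟩, ⟨1, -2⟩), (⟨6, 1⟩, ⟨1, -2⟩), (⟨0, 2⟩, ⟨3, 1⟩), (⟨0,
  2⟩, ⟨3, 1⟩), (⟨0, 2⟩, ⟨3, 1⟩), (⟨0, 2⟩, ⟨3, 1⟩), (⟨2, 1⟩, ⟨3, -1⟩), (⟨2, 1⟩, ⟨3, -1⟩), (⟨1, 1⟩,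
  ⟨4, 0⟩), (⟨1, 1⟩, ⟨4, 0⟩), (⟨1, 1⟩, ⟨4, 0⟩), (⟨1, 1⟩, ⟨4, 0⟩), (⟨1, 0⟩, ⟨2, -1⟩), (⟨1, 0⟩, ⟨2,
  -1⟩), (⟨1, 0⟩, ⟨2, -1⟩), (⟨1, 0⟩, ⟨2, -1⟩), (⟨1, 0⟩, ⟨2, 0⟩), (⟨1, 0⟩, ⟨2, 0⟩), (⟨1, 0⟩, ⟨2,
  0⟩), (⟨1, 0⟩, ⟨2, 0⟩), (⟨1, -1⟩, ⟨2, -1⟩), (⟨1, -1⟩, ⟨2, -1⟩), (⟨3, -1⟩, ⟨4, 0⟩), (⟨3, -1⟩, ⟨4,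
  0⟩), (⟨1, -2⟩, ⟨3, -1⟩), (⟨1, -2⟩, ⟨3, -1⟩), (⟨3, -1⟩, ⟨3, 1⟩), (⟨3, -1⟩, ⟨3, 1⟩), (⟨-5, -3⟩,
  ⟨1, -2⟩), (⟨2, 1⟩, ⟨1, -2⟩), (⟨1, 1⟩, ⟨3, -1⟩), (⟨1, 1⟩, ⟨3, -1⟩), (⟨-1, 1⟩, ⟨3, 2⟩), (⟨-1, 1⟩,
  ⟨3, 2⟩), (⟨1, -1⟩, ⟨4, -3⟩), (⟨1, -1⟩, ⟨4, -3⟩), (⟨1, -4⟩, ⟨4, -8⟩), (⟨1, -4⟩, ⟨4, -8⟩), (⟨1,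
  -3⟩, ⟨4, -3⟩), (⟨1, -3⟩, ⟨4, -3⟩), (⟨3, 0⟩, ⟨3, 2⟩), (⟨3, 0⟩, ⟨3, 2⟩), (⟨-1, -6⟩, ⟨3, -1⟩), (⟨0,
  1⟩, ⟨3, -1⟩), (⟨0, -1⟩, ⟨1, -2⟩), (⟨0, -1⟩, ⟨1, -2⟩), (⟨2, 0⟩, ⟨3, 1⟩), (⟨2, 0⟩, ⟨3, 1⟩), (⟨-2,
  -6⟩, ⟨3, -1⟩), (⟨-1, 1⟩, ⟨3, -1⟩), (⟨1, -1⟩, ⟨4, 0⟩), (⟨1, -1⟩, ⟨4, 0⟩), (⟨-3, -5⟩, ⟨2, -1⟩),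
  (⟨-1, 0⟩, ⟨2, -1⟩), (⟨-1, -4⟩, ⟨2, 0⟩), (⟨5, 0⟩, ⟨2, 0⟩), (⟨5, 0⟩, ⟨2, 0⟩), (⟨3, 4⟩, ⟨2, 0⟩),
  (⟨3, -1⟩, ⟨2, -1⟩), (⟨3, -1⟩, ⟨2, -1⟩), (⟨3, -1⟩, ⟨2, -1⟩), (⟨5, 4⟩, ⟨2, -1⟩), (⟨3, 1⟩, ⟨4, 0⟩),
  (⟨3, 1⟩, ⟨4, 0⟩), (⟨3, 1⟩, ⟨4, 0⟩), (⟨3, 1⟩, ⟨4, 0⟩), (⟨4, -2⟩, ⟨3, -1⟩), (⟨5, 5⟩, ⟨3, -1⟩),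
  (⟨1, 1⟩, ⟨3, 1⟩), (⟨1, 1⟩, ⟨3, 1⟩), (⟨1, 1⟩, ⟨3, 1⟩), (⟨1, 1⟩, ⟨3, 1⟩), (⟨1, -1⟩, ⟨1, -2⟩), (⟨1,
  -1⟩, ⟨1, -2⟩), (⟨1, -1⟩, ⟨1, -2⟩), (⟨1, -1⟩, ⟨1, -2⟩), (⟨3, -2⟩, ⟨3, -1⟩), (⟨3, -2⟩, ⟨3, -1⟩),
  (⟨3, -2⟩, ⟨3, -1⟩), (⟨3, -2⟩, ⟨3, -1⟩), (⟨3, -2⟩, ⟨3, -1⟩), (⟨4, 5⟩, ⟨3, -1⟩), (⟨0, 2⟩, ⟨3, 2⟩),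
  (⟨0, 2⟩, ⟨3, 2⟩), (⟨0, 2⟩, ⟨3, 2⟩), (⟨0, 2⟩, ⟨3, 2⟩), (⟨3, 0⟩, ⟨4, -3⟩), (⟨3, 0⟩, ⟨4, -3⟩), (⟨3,
  0⟩, ⟨4, -3⟩), (⟨3, 0⟩, ⟨4, -3⟩), (⟨3, -4⟩, ⟨4, -8⟩), (⟨3, -4⟩, ⟨4, -8⟩)]

def vcTab : List (O2 × O2) := [
  (⟨2, -1⟩, ⟨3, -2⟩), (⟨1, 1⟩, ⟨1, 2⟩), (⟨1, 1⟩, ⟨1, 2⟩), (⟨1, 0⟩, ⟨1, 0⟩), (⟨1, 0⟩, ⟨1, 0⟩), (⟨2,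
  2⟩, ⟨1, 3⟩), (⟨2, 2⟩, ⟨1, 3⟩), (⟨-1, -3⟩, ⟨1, -3⟩), (⟨-1, -3⟩, ⟨1, -3⟩), (⟨0, -1⟩, ⟨1, -1⟩),
  (⟨0, -1⟩, ⟨1, -1⟩), (⟨3, 2⟩, ⟨0, 3⟩), (⟨3, 2⟩, ⟨0, 3⟩), (⟨1, 1⟩, ⟨0, 1⟩), (⟨1, 1⟩, ⟨0, 1⟩), (⟨0,
  -1⟩, ⟨1, 0⟩), (⟨0, -1⟩, ⟨1, 0⟩), (⟨1, 1⟩, ⟨1, 0⟩), (⟨1, 1⟩, ⟨1, 0⟩), (⟨-1, 0⟩, ⟨0, 1⟩), (⟨-1,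
  0⟩, ⟨0, 1⟩), (⟨-3, 1⟩, ⟨0, 3⟩), (⟨-3, 1⟩, ⟨0, 3⟩), (⟨1, 0⟩, ⟨1, -1⟩), (⟨1, 0⟩, ⟨1, -1⟩), (⟨2,
  0⟩, ⟨1, -3⟩), (⟨2, 0⟩, ⟨1, -3⟩), (⟨-1, 1⟩, ⟨1, 3⟩), (⟨-1, 1⟩, ⟨1, 3⟩), (⟨0, 0⟩, ⟨1, 0⟩), (⟨0,
  0⟩, ⟨1, 0⟩), (⟨0, 1⟩, ⟨1, 2⟩), (⟨0, 1⟩, ⟨1, 2⟩), (⟨1, -1⟩, ⟨3, -2⟩), (⟨1, -1⟩, ⟨3, -2⟩), (⟨1,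
  1⟩, ⟨1, 2⟩), (⟨1, 1⟩, ⟨1, 2⟩), (⟨2, 2⟩, ⟨1, 3⟩), (⟨2, 2⟩, ⟨1, 3⟩), (⟨0, -1⟩, ⟨1, -1⟩), (⟨0, -1⟩,
  ⟨1, -1⟩), (⟨3, 2⟩, ⟨0, 3⟩), (⟨3, 2⟩, ⟨0, 3⟩), (⟨0, -1⟩, ⟨1, 0⟩), (⟨0, -1⟩, ⟨1, 0⟩), (⟨-1, 0⟩,
  ⟨0, 1⟩), (⟨-1, 0⟩, ⟨0, 1⟩), (⟨2, 0⟩, ⟨1, -3⟩), (⟨2, 0⟩, ⟨1, -3⟩), (⟨0, 0⟩, ⟨1, 0⟩), (⟨0, 0⟩, ⟨1,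
  0⟩), (⟨1, -1⟩, ⟨3, -2⟩), (⟨1, -1⟩, ⟨3, -2⟩), (⟨1, 1⟩, ⟨1, 2⟩), (⟨1, 1⟩, ⟨1, 2⟩), (⟨0, -1⟩, ⟨1,
  -1⟩), (⟨0, -1⟩, ⟨1, -1⟩), (⟨0, -1⟩, ⟨1, 0⟩), (⟨0, -1⟩, ⟨1, 0⟩), (⟨0, 0⟩, ⟨1, 0⟩), (⟨0, 0⟩, ⟨1,
  0⟩), (⟨1, 1⟩, ⟨1, 2⟩), (⟨1, 1⟩, ⟨1, 2⟩), (⟨0, -1⟩, ⟨1, 0⟩), (⟨0, -1⟩, ⟨1, 0⟩), (⟨0, 0⟩, ⟨1, 0⟩),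
  (⟨0, 0⟩, ⟨1, 0⟩), (⟨0, -1⟩, ⟨1, 0⟩), (⟨0, -1⟩, ⟨1, 0⟩), (⟨0, -1⟩, ⟨1, 0⟩), (⟨0, -1⟩, ⟨1, 0⟩),
  (⟨1, 1⟩, ⟨1, 0⟩), (⟨1, 1⟩, ⟨1, 0⟩), (⟨1, 1⟩, ⟨1, 0⟩), (⟨1, 1⟩, ⟨1, 0⟩), (⟨1, 0⟩, ⟨1, 0⟩), (⟨1,
  0⟩, ⟨1, 0⟩), (⟨1, 1⟩, ⟨1, 0⟩), (⟨1, 1⟩, ⟨1, 0⟩), (⟨0, 1⟩, ⟨1, 2⟩), (⟨0, 1⟩, ⟨1, 2⟩), (⟨1, 0⟩,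
  ⟨1, 0⟩), (⟨1, 0⟩, ⟨1, 0⟩), (⟨1, 1⟩, ⟨1, 0⟩), (⟨1, 1⟩, ⟨1, 0⟩), (⟨1, 0⟩, ⟨1, -1⟩), (⟨1, 0⟩, ⟨1,
  -1⟩), (⟨0, 1⟩, ⟨1, 2⟩), (⟨0, 1⟩, ⟨1, 2⟩), (⟨2, -1⟩, ⟨3, -2⟩), (⟨2, -1⟩, ⟨3, -2⟩), (⟨1, 0⟩, ⟨1,
  0⟩), (⟨1, 0⟩, ⟨1, 0⟩), (⟨-1, -3⟩, ⟨1, -3⟩), (⟨-1, -3⟩, ⟨1, -3⟩), (⟨1, 1⟩, ⟨0, 1⟩), (⟨1, 1⟩, ⟨0,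
  1⟩), (⟨1, 1⟩, ⟨1, 0⟩), (⟨1, 1⟩, ⟨1, 0⟩), (⟨-3, 1⟩, ⟨0, 3⟩), (⟨-3, 1⟩, ⟨0, 3⟩), (⟨1, 0⟩, ⟨1,
  -1⟩), (⟨1, 0⟩, ⟨1, -1⟩), (⟨-1, 1⟩, ⟨1, 3⟩), (⟨-1, 1⟩, ⟨1, 3⟩), (⟨0, 1⟩, ⟨1, 2⟩), (⟨0, 1⟩, ⟨1,
  2⟩), (⟨2, -1⟩, ⟨3, -2⟩)]

/-- gluing matrices `gl (L, a) ∞`. -/
def glLTab : List (O2 × O2 × O2 × O2) := [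
  (⟨1, 0⟩, ⟨-3, 0⟩, ⟨2, 0⟩, ⟨-5, 0⟩), (⟨1, 0⟩, ⟨-2, -2⟩, ⟨2, 0⟩, ⟨-3, -4⟩), (⟨1, -1⟩, ⟨-2, 1⟩, ⟨2,
  -1⟩, ⟨-3, 1⟩), (⟨1, -1⟩, ⟨-2, 1⟩, ⟨2, -1⟩, ⟨-3, 1⟩), (⟨1, -1⟩, ⟨-2, 1⟩, ⟨2, -1⟩, ⟨-3, 1⟩), (⟨1,
  -1⟩, ⟨-5, -2⟩, ⟨2, -1⟩, ⟨-5, -4⟩), (⟨3, -1⟩, ⟨-3, 0⟩, ⟨4, 0⟩, ⟨-3, -1⟩), (⟨3, -1⟩, ⟨-3, 0⟩, ⟨4,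
  0⟩, ⟨-3, -1⟩), (⟨3, -1⟩, ⟨-3, 0⟩, ⟨4, 0⟩, ⟨-3, -1⟩), (⟨3, -1⟩, ⟨-3, 0⟩, ⟨4, 0⟩, ⟨-3, -1⟩), (⟨1,
  -2⟩, ⟨-1, 3⟩, ⟨3, -1⟩, ⟨-4, 2⟩), (⟨1, -2⟩, ⟨-8, -1⟩, ⟨3, -1⟩, ⟨-5, -5⟩), (⟨3, -1⟩, ⟨-2, 0⟩, ⟨3,
  1⟩, ⟨-1, -1⟩), (⟨3, -1⟩, ⟨-2, 0⟩, ⟨3, 1⟩, ⟨-1, -1⟩), (⟨3, -1⟩, ⟨-2, 0⟩, ⟨3, 1⟩, ⟨-1, -1⟩), (⟨3,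
  -1⟩, ⟨-2, 0⟩, ⟨3, 1⟩, ⟨-1, -1⟩), (⟨-5, -3⟩, ⟨2, 2⟩, ⟨1, -2⟩, ⟨-1, 1⟩), (⟨2, 1⟩, ⟨-1, -1⟩, ⟨1,
  -2⟩, ⟨-1, 1⟩), (⟨2, 1⟩, ⟨-1, -1⟩, ⟨1, -2⟩, ⟨-1, 1⟩), (⟨2, 1⟩, ⟨-1, -1⟩, ⟨1, -2⟩, ⟨-1, 1⟩), (⟨1,
  1⟩, ⟨-2, -1⟩, ⟨3, -1⟩, ⟨-3, 2⟩), (⟨1, 1⟩, ⟨-2, -1⟩, ⟨3, -1⟩, ⟨-3, 2⟩), (⟨1, 1⟩, ⟨-2, -1⟩, ⟨3,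
  -1⟩, ⟨-3, 2⟩), (⟨1, 1⟩, ⟨-2, -1⟩, ⟨3, -1⟩, ⟨-3, 2⟩), (⟨1, 1⟩, ⟨-2, -1⟩, ⟨3, -1⟩, ⟨-3, 2⟩), (⟨1,
  1⟩, ⟨3, -2⟩, ⟨3, -1⟩, ⟨-4, -5⟩), (⟨-1, 1⟩, ⟨1, 0⟩, ⟨3, 2⟩, ⟨0, -2⟩), (⟨-1, 1⟩, ⟨1, 0⟩, ⟨3, 2⟩,
  ⟨0, -2⟩), (⟨-1, 1⟩, ⟨1, 0⟩, ⟨3, 2⟩, ⟨0, -2⟩), (⟨-1, 1⟩, ⟨1, 0⟩, ⟨3, 2⟩, ⟨0, -2⟩), (⟨1, -1⟩, ⟨-1,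
  0⟩, ⟨4, -3⟩, ⟨-3, 0⟩), (⟨1, -1⟩, ⟨-1, 0⟩, ⟨4, -3⟩, ⟨-3, 0⟩), (⟨1, -1⟩, ⟨-1, 0⟩, ⟨4, -3⟩, ⟨-3,
  0⟩), (⟨1, -1⟩, ⟨-1, 0⟩, ⟨4, -3⟩, ⟨-3, 0⟩), (⟨1, -4⟩, ⟨-1, 2⟩, ⟨4, -8⟩, ⟨-3, 4⟩), (⟨1, -4⟩, ⟨-1,
  2⟩, ⟨4, -8⟩, ⟨-3, 4⟩), (⟨1, -3⟩, ⟨-1, 2⟩, ⟨4, -3⟩, ⟨-3, 2⟩), (⟨1, -3⟩, ⟨-1, 2⟩, ⟨4, -3⟩, ⟨-3,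
  2⟩), (⟨1, -3⟩, ⟨-1, 2⟩, ⟨4, -3⟩, ⟨-3, 2⟩), (⟨1, -3⟩, ⟨-1, 2⟩, ⟨4, -3⟩, ⟨-3, 2⟩), (⟨3, 0⟩, ⟨-3,
  1⟩, ⟨3, 2⟩, ⟨-4, -1⟩), (⟨3, 0⟩, ⟨-3, 1⟩, ⟨3, 2⟩, ⟨-4, -1⟩), (⟨3, 0⟩, ⟨-3, 1⟩, ⟨3, 2⟩, ⟨-4, -1⟩),
  (⟨3, 0⟩, ⟨-3, 1⟩, ⟨3, 2⟩, ⟨-4, -1⟩), (⟨-1, -6⟩, ⟨5, 5⟩, ⟨3, -1⟩, ⟨-2, 2⟩), (⟨0, 1⟩, ⟨-1, -1⟩,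
  ⟨3, -1⟩, ⟨-2, 2⟩), (⟨0, 1⟩, ⟨-1, -1⟩, ⟨3, -1⟩, ⟨-2, 2⟩), (⟨0, 1⟩, ⟨-1, -1⟩, ⟨3, -1⟩, ⟨-2, 2⟩),
  (⟨0, 1⟩, ⟨-1, -1⟩, ⟨3, -1⟩, ⟨-2, 2⟩), (⟨0, 1⟩, ⟨-1, -1⟩, ⟨3, -1⟩, ⟨-2, 2⟩), (⟨0, -1⟩, ⟨1, 1⟩,
  ⟨1, -2⟩, ⟨1, 3⟩), (⟨0, -1⟩, ⟨1, 1⟩, ⟨1, -2⟩, ⟨1, 3⟩), (⟨0, -1⟩, ⟨1, 1⟩, ⟨1, -2⟩, ⟨1, 3⟩), (⟨0,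
  -1⟩, ⟨-3, 0⟩, ⟨1, -2⟩, ⟨-6, -1⟩), (⟨2, 0⟩, ⟨-1, -1⟩, ⟨3, 1⟩, ⟨0, -2⟩), (⟨2, 0⟩, ⟨-1, -1⟩, ⟨3,
  1⟩, ⟨0, -2⟩), (⟨2, 0⟩, ⟨-1, -1⟩, ⟨3, 1⟩, ⟨0, -2⟩), (⟨2, 0⟩, ⟨-1, -1⟩, ⟨3, 1⟩, ⟨0, -2⟩), (⟨-2,
  -6⟩, ⟨-5, 3⟩, ⟨3, -1⟩, ⟨-2, -1⟩), (⟨-1, 1⟩, ⟨1, 0⟩, ⟨3, -1⟩, ⟨-2, -1⟩), (⟨1, -1⟩, ⟨-1, 0⟩, ⟨4,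
  0⟩, ⟨-1, -1⟩), (⟨1, -1⟩, ⟨-1, 0⟩, ⟨4, 0⟩, ⟨-1, -1⟩), (⟨1, -1⟩, ⟨-1, 0⟩, ⟨4, 0⟩, ⟨-1, -1⟩), (⟨1,
  -1⟩, ⟨-1, 0⟩, ⟨4, 0⟩, ⟨-1, -1⟩), (⟨-3, -5⟩, ⟨-1, 2⟩, ⟨2, -1⟩, ⟨-1, 0⟩), (⟨-1, 0⟩, ⟨0, 0⟩, ⟨2,
  -1⟩, ⟨-1, 0⟩), (⟨-1, 0⟩, ⟨0, 0⟩, ⟨2, -1⟩, ⟨-1, 0⟩), (⟨-1, 0⟩, ⟨0, 0⟩, ⟨2, -1⟩, ⟨-1, 0⟩), (⟨-1,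
  -4⟩, ⟨0, 2⟩, ⟨2, 0⟩, ⟨-1, 0⟩), (⟨-3, 0⟩, ⟨1, 0⟩, ⟨2, 0⟩, ⟨-1, 0⟩), (⟨-3, 0⟩, ⟨1, 0⟩, ⟨2, 0⟩,
  ⟨-1, 0⟩), (⟨3, 4⟩, ⟨-2, -2⟩, ⟨2, 0⟩, ⟨-1, 0⟩), (⟨3, -1⟩, ⟨-2, 1⟩, ⟨2, -1⟩, ⟨-1, 1⟩), (⟨5, 4⟩,
  ⟨-5, -2⟩, ⟨2, -1⟩, ⟨-1, 1⟩), (⟨3, 1⟩, ⟨-3, 0⟩, ⟨4, 0⟩, ⟨-3, 1⟩), (⟨3, 1⟩, ⟨-3, 0⟩, ⟨4, 0⟩, ⟨-3,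
  1⟩), (⟨4, -2⟩, ⟨-1, 3⟩, ⟨3, -1⟩, ⟨-1, 2⟩), (⟨5, 5⟩, ⟨-8, -1⟩, ⟨3, -1⟩, ⟨-1, 2⟩), (⟨1, 1⟩, ⟨-2,
  0⟩, ⟨3, 1⟩, ⟨-3, 1⟩), (⟨1, 1⟩, ⟨-2, 0⟩, ⟨3, 1⟩, ⟨-3, 1⟩), (⟨1, -1⟩, ⟨2, 2⟩, ⟨1, -2⟩, ⟨5, 3⟩),
  (⟨1, -1⟩, ⟨-1, -1⟩, ⟨1, -2⟩, ⟨-2, -1⟩), (⟨3, -2⟩, ⟨-2, -1⟩, ⟨3, -1⟩, ⟨-1, -1⟩), (⟨4, 5⟩, ⟨3,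
  -2⟩, ⟨3, -1⟩, ⟨-1, -1⟩), (⟨0, 2⟩, ⟨1, 0⟩, ⟨3, 2⟩, ⟨1, -1⟩), (⟨0, 2⟩, ⟨1, 0⟩, ⟨3, 2⟩, ⟨1, -1⟩),
  (⟨3, 0⟩, ⟨-1, 0⟩, ⟨4, -3⟩, ⟨-1, 1⟩), (⟨3, 0⟩, ⟨-1, 0⟩, ⟨4, -3⟩, ⟨-1, 1⟩), (⟨3, -4⟩, ⟨-1, 2⟩, ⟨4,
  -8⟩, ⟨-1, 4⟩), (⟨3, -4⟩, ⟨-1, 2⟩, ⟨4, -8⟩, ⟨-1, 4⟩), (⟨3, -2⟩, ⟨-1, 2⟩, ⟨4, -3⟩, ⟨-1, 3⟩), (⟨3,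
  -2⟩, ⟨-1, 2⟩, ⟨4, -3⟩, ⟨-1, 3⟩), (⟨4, 1⟩, ⟨-3, 1⟩, ⟨3, 2⟩, ⟨-3, 0⟩), (⟨4, 1⟩, ⟨-3, 1⟩, ⟨3, 2⟩,
  ⟨-3, 0⟩), (⟨2, -2⟩, ⟨5, 5⟩, ⟨3, -1⟩, ⟨1, 6⟩), (⟨2, -2⟩, ⟨-1, -1⟩, ⟨3, -1⟩, ⟨0, -1⟩), (⟨-1, -3⟩,
  ⟨1, 1⟩, ⟨1, -2⟩, ⟨0, 1⟩), (⟨6, 1⟩, ⟨-3, 0⟩, ⟨1, -2⟩, ⟨0, 1⟩), (⟨0, 2⟩, ⟨-1, -1⟩, ⟨3, 1⟩, ⟨-2,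
  0⟩), (⟨0, 2⟩, ⟨-1, -1⟩, ⟨3, 1⟩, ⟨-2, 0⟩), (⟨2, 1⟩, ⟨-5, 3⟩, ⟨3, -1⟩, ⟨2, 6⟩), (⟨2, 1⟩, ⟨1, 0⟩,
  ⟨3, -1⟩, ⟨1, -1⟩), (⟨1, 1⟩, ⟨-1, 0⟩, ⟨4, 0⟩, ⟨-1, 1⟩), (⟨1, 1⟩, ⟨-1, 0⟩, ⟨4, 0⟩, ⟨-1, 1⟩), (⟨1,
  0⟩, ⟨-1, 2⟩, ⟨2, -1⟩, ⟨3, 5⟩), (⟨1, 0⟩, ⟨0, 0⟩, ⟨2, -1⟩, ⟨1, 0⟩), (⟨1, 0⟩, ⟨0, 2⟩, ⟨2, 0⟩, ⟨1,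
  4⟩), (⟨1, 0⟩, ⟨-3, 0⟩, ⟨2, 0⟩, ⟨-5, 0⟩)]

/-- gluing matrices `gl (R, a) ∞`. -/
def glRTab : List (O2 × O2 × O2 × O2) := [
  (⟨3, -2⟩, ⟨-1, 2⟩, ⟨4, -3⟩, ⟨-1, 3⟩), (⟨3, -2⟩, ⟨-1, 2⟩, ⟨4, -3⟩, ⟨-1, 3⟩), (⟨3, -2⟩, ⟨-1, 2⟩,
  ⟨4, -3⟩, ⟨-1, 3⟩), (⟨3, -2⟩, ⟨-1, 2⟩, ⟨4, -3⟩, ⟨-1, 3⟩), (⟨4, 1⟩, ⟨-3, 1⟩, ⟨3, 2⟩, ⟨-3, 0⟩),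
  (⟨4, 1⟩, ⟨-3, 1⟩, ⟨3, 2⟩, ⟨-3, 0⟩), (⟨4, 1⟩, ⟨-3, 1⟩, ⟨3, 2⟩, ⟨-3, 0⟩), (⟨4, 1⟩, ⟨-3, 1⟩, ⟨3,
  2⟩, ⟨-3, 0⟩), (⟨2, -2⟩, ⟨5, 5⟩, ⟨3, -1⟩, ⟨1, 6⟩), (⟨2, -2⟩, ⟨-1, -1⟩, ⟨3, -1⟩, ⟨0, -1⟩), (⟨2,
  -2⟩, ⟨-1, -1⟩, ⟨3, -1⟩, ⟨0, -1⟩), (⟨2, -2⟩, ⟨-1, -1⟩, ⟨3, -1⟩, ⟨0, -1⟩), (⟨2, -2⟩, ⟨-1, -1⟩, ⟨3,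
  -1⟩, ⟨0, -1⟩), (⟨2, -2⟩, ⟨-1, -1⟩, ⟨3, -1⟩, ⟨0, -1⟩), (⟨-1, -3⟩, ⟨1, 1⟩, ⟨1, -2⟩, ⟨0, 1⟩), (⟨-1,
  -3⟩, ⟨1, 1⟩, ⟨1, -2⟩, ⟨0, 1⟩), (⟨-1, -3⟩, ⟨1, 1⟩, ⟨1, -2⟩, ⟨0, 1⟩), (⟨6, 1⟩, ⟨-3, 0⟩, ⟨1, -2⟩,
  ⟨0, 1⟩), (⟨0, 2⟩, ⟨-1, -1⟩, ⟨3, 1⟩, ⟨-2, 0⟩), (⟨0, 2⟩, ⟨-1, -1⟩, ⟨3, 1⟩, ⟨-2, 0⟩), (⟨0, 2⟩, ⟨-1,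
  -1⟩, ⟨3, 1⟩, ⟨-2, 0⟩), (⟨0, 2⟩, ⟨-1, -1⟩, ⟨3, 1⟩, ⟨-2, 0⟩), (⟨2, 1⟩, ⟨-5, 3⟩, ⟨3, -1⟩, ⟨2, 6⟩),
  (⟨2, 1⟩, ⟨1, 0⟩, ⟨3, -1⟩, ⟨1, -1⟩), (⟨1, 1⟩, ⟨-1, 0⟩, ⟨4, 0⟩, ⟨-1, 1⟩), (⟨1, 1⟩, ⟨-1, 0⟩, ⟨4,
  0⟩, ⟨-1, 1⟩), (⟨1, 1⟩, ⟨-1, 0⟩, ⟨4, 0⟩, ⟨-1, 1⟩), (⟨1, 1⟩, ⟨-1, 0⟩, ⟨4, 0⟩, ⟨-1, 1⟩), (⟨1, 0⟩,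
  ⟨-1, 2⟩, ⟨2, -1⟩, ⟨3, 5⟩), (⟨1, 0⟩, ⟨0, 0⟩, ⟨2, -1⟩, ⟨1, 0⟩), (⟨1, 0⟩, ⟨0, 0⟩, ⟨2, -1⟩, ⟨1, 0⟩),
  (⟨1, 0⟩, ⟨0, 0⟩, ⟨2, -1⟩, ⟨1, 0⟩), (⟨1, 0⟩, ⟨0, 2⟩, ⟨2, 0⟩, ⟨1, 4⟩), (⟨1, 0⟩, ⟨1, 0⟩, ⟨2, 0⟩,
  ⟨3, 0⟩), (⟨1, 0⟩, ⟨1, 0⟩, ⟨2, 0⟩, ⟨3, 0⟩), (⟨1, 0⟩, ⟨-2, -2⟩, ⟨2, 0⟩, ⟨-3, -4⟩), (⟨1, -1⟩, ⟨-2,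
  1⟩, ⟨2, -1⟩, ⟨-3, 1⟩), (⟨1, -1⟩, ⟨-5, -2⟩, ⟨2, -1⟩, ⟨-5, -4⟩), (⟨3, -1⟩, ⟨-3, 0⟩, ⟨4, 0⟩, ⟨-3,
  -1⟩), (⟨3, -1⟩, ⟨-3, 0⟩, ⟨4, 0⟩, ⟨-3, -1⟩), (⟨1, -2⟩, ⟨-1, 3⟩, ⟨3, -1⟩, ⟨-4, 2⟩), (⟨1, -2⟩, ⟨-8,
  -1⟩, ⟨3, -1⟩, ⟨-5, -5⟩), (⟨3, -1⟩, ⟨-2, 0⟩, ⟨3, 1⟩, ⟨-1, -1⟩), (⟨3, -1⟩, ⟨-2, 0⟩, ⟨3, 1⟩, ⟨-1,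
  -1⟩), (⟨-5, -3⟩, ⟨2, 2⟩, ⟨1, -2⟩, ⟨-1, 1⟩), (⟨2, 1⟩, ⟨-1, -1⟩, ⟨1, -2⟩, ⟨-1, 1⟩), (⟨1, 1⟩, ⟨-2,
  -1⟩, ⟨3, -1⟩, ⟨-3, 2⟩), (⟨1, 1⟩, ⟨3, -2⟩, ⟨3, -1⟩, ⟨-4, -5⟩), (⟨-1, 1⟩, ⟨1, 0⟩, ⟨3, 2⟩, ⟨0,
  -2⟩), (⟨-1, 1⟩, ⟨1, 0⟩, ⟨3, 2⟩, ⟨0, -2⟩), (⟨1, -1⟩, ⟨-1, 0⟩, ⟨4, -3⟩, ⟨-3, 0⟩), (⟨1, -1⟩, ⟨-1,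
  0⟩, ⟨4, -3⟩, ⟨-3, 0⟩), (⟨1, -4⟩, ⟨-1, 2⟩, ⟨4, -8⟩, ⟨-3, 4⟩), (⟨1, -4⟩, ⟨-1, 2⟩, ⟨4, -8⟩, ⟨-3,
  4⟩), (⟨1, -3⟩, ⟨-1, 2⟩, ⟨4, -3⟩, ⟨-3, 2⟩), (⟨1, -3⟩, ⟨-1, 2⟩, ⟨4, -3⟩, ⟨-3, 2⟩), (⟨3, 0⟩, ⟨-3,
  1⟩, ⟨3, 2⟩, ⟨-4, -1⟩), (⟨3, 0⟩, ⟨-3, 1⟩, ⟨3, 2⟩, ⟨-4, -1⟩), (⟨-1, -6⟩, ⟨5, 5⟩, ⟨3, -1⟩, ⟨-2,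
  2⟩), (⟨0, 1⟩, ⟨-1, -1⟩, ⟨3, -1⟩, ⟨-2, 2⟩), (⟨0, -1⟩, ⟨1, 1⟩, ⟨1, -2⟩, ⟨1, 3⟩), (⟨0, -1⟩, ⟨-3,
  0⟩, ⟨1, -2⟩, ⟨-6, -1⟩), (⟨2, 0⟩, ⟨-1, -1⟩, ⟨3, 1⟩, ⟨0, -2⟩), (⟨2, 0⟩, ⟨-1, -1⟩, ⟨3, 1⟩, ⟨0,
  -2⟩), (⟨-2, -6⟩, ⟨-5, 3⟩, ⟨3, -1⟩, ⟨-2, -1⟩), (⟨-1, 1⟩, ⟨1, 0⟩, ⟨3, -1⟩, ⟨-2, -1⟩), (⟨1, -1⟩,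
  ⟨-1, 0⟩, ⟨4, 0⟩, ⟨-1, -1⟩), (⟨1, -1⟩, ⟨-1, 0⟩, ⟨4, 0⟩, ⟨-1, -1⟩), (⟨-3, -5⟩, ⟨-1, 2⟩, ⟨2, -1⟩,
  ⟨-1, 0⟩), (⟨-1, 0⟩, ⟨0, 0⟩, ⟨2, -1⟩, ⟨-1, 0⟩), (⟨-1, -4⟩, ⟨0, 2⟩, ⟨2, 0⟩, ⟨-1, 0⟩), (⟨5, 0⟩,
  ⟨-3, 0⟩, ⟨2, 0⟩, ⟨-1, 0⟩), (⟨5, 0⟩, ⟨-3, 0⟩, ⟨2, 0⟩, ⟨-1, 0⟩), (⟨3, 4⟩, ⟨-2, -2⟩, ⟨2, 0⟩, ⟨-1,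
  0⟩), (⟨3, -1⟩, ⟨-2, 1⟩, ⟨2, -1⟩, ⟨-1, 1⟩), (⟨3, -1⟩, ⟨-2, 1⟩, ⟨2, -1⟩, ⟨-1, 1⟩), (⟨3, -1⟩, ⟨-2,
  1⟩, ⟨2, -1⟩, ⟨-1, 1⟩), (⟨5, 4⟩, ⟨-5, -2⟩, ⟨2, -1⟩, ⟨-1, 1⟩), (⟨3, 1⟩, ⟨-3, 0⟩, ⟨4, 0⟩, ⟨-3, 1⟩),
  (⟨3, 1⟩, ⟨-3, 0⟩, ⟨4, 0⟩, ⟨-3, 1⟩), (⟨3, 1⟩, ⟨-3, 0⟩, ⟨4, 0⟩, ⟨-3, 1⟩), (⟨3, 1⟩, ⟨-3, 0⟩, ⟨4,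
  0⟩, ⟨-3, 1⟩), (⟨4, -2⟩, ⟨-1, 3⟩, ⟨3, -1⟩, ⟨-1, 2⟩), (⟨5, 5⟩, ⟨-8, -1⟩, ⟨3, -1⟩, ⟨-1, 2⟩), (⟨1,
  1⟩, ⟨-2, 0⟩, ⟨3, 1⟩, ⟨-3, 1⟩), (⟨1, 1⟩, ⟨-2, 0⟩, ⟨3, 1⟩, ⟨-3, 1⟩), (⟨1, 1⟩, ⟨-2, 0⟩, ⟨3, 1⟩,
  ⟨-3, 1⟩), (⟨1, 1⟩, ⟨-2, 0⟩, ⟨3, 1⟩, ⟨-3, 1⟩), (⟨1, -1⟩, ⟨2, 2⟩, ⟨1, -2⟩, ⟨5, 3⟩), (⟨1, -1⟩, ⟨-1,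
  -1⟩, ⟨1, -2⟩, ⟨-2, -1⟩), (⟨1, -1⟩, ⟨-1, -1⟩, ⟨1, -2⟩, ⟨-2, -1⟩), (⟨1, -1⟩, ⟨-1, -1⟩, ⟨1, -2⟩,
  ⟨-2, -1⟩), (⟨3, -2⟩, ⟨-2, -1⟩, ⟨3, -1⟩, ⟨-1, -1⟩), (⟨3, -2⟩, ⟨-2, -1⟩, ⟨3, -1⟩, ⟨-1, -1⟩), (⟨3,
  -2⟩, ⟨-2, -1⟩, ⟨3, -1⟩, ⟨-1, -1⟩), (⟨3, -2⟩, ⟨-2, -1⟩, ⟨3, -1⟩, ⟨-1, -1⟩), (⟨3, -2⟩, ⟨-2, -1⟩,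
  ⟨3, -1⟩, ⟨-1, -1⟩), (⟨4, 5⟩, ⟨3, -2⟩, ⟨3, -1⟩, ⟨-1, -1⟩), (⟨0, 2⟩, ⟨1, 0⟩, ⟨3, 2⟩, ⟨1, -1⟩),
  (⟨0, 2⟩, ⟨1, 0⟩, ⟨3, 2⟩, ⟨1, -1⟩), (⟨0, 2⟩, ⟨1, 0⟩, ⟨3, 2⟩, ⟨1, -1⟩), (⟨0, 2⟩, ⟨1, 0⟩, ⟨3, 2⟩,
  ⟨1, -1⟩), (⟨3, 0⟩, ⟨-1, 0⟩, ⟨4, -3⟩, ⟨-1, 1⟩), (⟨3, 0⟩, ⟨-1, 0⟩, ⟨4, -3⟩, ⟨-1, 1⟩), (⟨3, 0⟩,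
  ⟨-1, 0⟩, ⟨4, -3⟩, ⟨-1, 1⟩), (⟨3, 0⟩, ⟨-1, 0⟩, ⟨4, -3⟩, ⟨-1, 1⟩), (⟨3, -4⟩, ⟨-1, 2⟩, ⟨4, -8⟩,
  ⟨-1, 4⟩), (⟨3, -4⟩, ⟨-1, 2⟩, ⟨4, -8⟩, ⟨-1, 4⟩)]

/-- gluing translations `gl (side, a) c`. -/
def tauTab : List O2 := [
  ⟨0, 0⟩, ⟨0, 0⟩, ⟨0, 0⟩, ⟨0, 0⟩, ⟨0, 0⟩, ⟨0, 0⟩, ⟨0, 0⟩, ⟨0, 0⟩, ⟨0, 0⟩, ⟨0, 0⟩, ⟨0, 0⟩, ⟨0, 0⟩,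
  ⟨0, 0⟩, ⟨0, 0⟩, ⟨0, 0⟩, ⟨0, 0⟩, ⟨1, -2⟩, ⟨-1, 2⟩, ⟨0, 0⟩, ⟨0, 0⟩, ⟨0, 0⟩, ⟨0, 0⟩, ⟨0, 0⟩, ⟨0,
  0⟩, ⟨0, 0⟩, ⟨0, 0⟩, ⟨0, 0⟩, ⟨0, 0⟩, ⟨0, 0⟩, ⟨0, 0⟩, ⟨0, 0⟩, ⟨0, 0⟩, ⟨0, 0⟩, ⟨0, 0⟩, ⟨0, 0⟩, ⟨0,
  0⟩, ⟨0, 0⟩, ⟨0, 0⟩, ⟨0, 0⟩, ⟨0, 0⟩, ⟨0, 0⟩, ⟨0, 0⟩, ⟨0, 0⟩, ⟨0, 0⟩, ⟨1, -2⟩, ⟨-1, 2⟩, ⟨0, 0⟩,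
  ⟨0, 0⟩, ⟨0, 0⟩, ⟨0, 0⟩, ⟨0, 0⟩, ⟨0, 0⟩, ⟨0, 0⟩, ⟨0, 0⟩, ⟨0, 0⟩, ⟨0, 0⟩, ⟨0, 0⟩, ⟨0, 0⟩, ⟨1, -2⟩,
  ⟨-1, 2⟩, ⟨0, 0⟩, ⟨0, 0⟩, ⟨0, 0⟩, ⟨0, 0⟩, ⟨1, -2⟩, ⟨-1, 2⟩, ⟨0, 0⟩, ⟨0, 0⟩, ⟨1, -2⟩, ⟨-1, 2⟩,
  ⟨-3, -2⟩, ⟨3, 2⟩, ⟨1, -2⟩, ⟨-1, 2⟩, ⟨0, 0⟩, ⟨0, 0⟩, ⟨1, -2⟩, ⟨-1, 2⟩, ⟨0, 0⟩, ⟨0, 0⟩, ⟨0, 0⟩,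
  ⟨0, 0⟩, ⟨1, -2⟩, ⟨-1, 2⟩, ⟨0, 0⟩, ⟨0, 0⟩, ⟨0, 0⟩, ⟨0, 0⟩, ⟨0, 0⟩, ⟨0, 0⟩, ⟨0, 0⟩, ⟨0, 0⟩, ⟨0,
  0⟩, ⟨0, 0⟩, ⟨0, 0⟩, ⟨0, 0⟩, ⟨1, -2⟩, ⟨-1, 2⟩, ⟨0, 0⟩, ⟨0, 0⟩, ⟨0, 0⟩, ⟨0, 0⟩, ⟨0, 0⟩, ⟨0, 0⟩,
  ⟨0, 0⟩, ⟨0, 0⟩, ⟨0, 0⟩, ⟨0, 0⟩]

def v0 (a : Fin 108) : O2 × O2 := v0Tab.getD a (0, 0)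
def v1 (a : Fin 108) : O2 × O2 := v1Tab.getD a (0, 0)
def vc (a : Fin 108) : O2 × O2 := vcTab.getD a (0, 0)

/-- The matrix entries `(g00, g01, g10, g11)` of the gluing element: `gl p X` maps the flag
`fl p X` to the neighbour of the flag `p` across the facet opposite to the vertex of type `X`. -/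
def glM (p : Flag) (X : Fin 4) : O2 × O2 × O2 × O2 :=
  match X with
  | 0 => if p.1 then glLTab.getD p.2 (1, 0, 0, 1) else glRTab.getD p.2 (1, 0, 0, 1)
  | 1 => (1, 0, 0, 1)
  | 2 => (1, 0, 0, 1)
  | 3 => (1, tauTab.getD p.2 0, 0, 1)

/-! permutations of the 24 cosets `Γ \ PSL(2, ℤ[√-2])` (right action of `T(1)`, `S`, `T(√-2)`). -/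
def permA : List ℕ := [1, 20, 3, 19, 2, 6, 7, 4, 11, 8, 9, 12, 13, 14, 10, 0, 18, 21, 17, 5, 15, 16, 22, 23]
def permB : List ℕ := [14, 2, 1, 13, 5, 4, 9, 8, 7, 6, 11, 10, 15, 3, 0, 12, 17, 16, 23, 20, 19, 22, 21, 18]
def permU : List ℕ := [17, 21, 19, 5, 3, 7, 4, 2, 12, 11, 8, 13, 14, 10, 9, 18, 15, 1, 0, 6, 16, 20, 22, 23]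

/-! ### The two combinatorial quotient spaces -/

/-- `f ↦ f + 1` on the circle `ℝ ∪ {∞}`. -/
def TT (f : OnePoint ℝ) : OnePoint ℝ := f.elim OnePoint.infty (fun x => ((x + 1 : ℝ) : OnePoint ℝ))

/-- `f ↦ - 1 / f` on the circle `ℝ ∪ {∞}`. -/
def SS (f : OnePoint ℝ) : OnePoint ℝ :=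
  f.elim ((0 : ℝ) : OnePoint ℝ) (fun x => if x = 0 then OnePoint.infty else ((-1 / x : ℝ) : OnePoint ℝ))

/-- the slits in `ℝ × (ℝ ∪ {∞})`. -/
def slit (x : ℝ) (f : OnePoint ℝ) : Prop :=
  ∃ n : ℤ, |x - n| ≤ 1 / 2 ∧ ∃ k : Fin 54, cr k = true ∧ f = ((lev k + n : ℝ) : OnePoint ℝ)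

/-- The space `V` of triples `(x, f, h)`, `h ≥ 0`, not on a slit if `h = 0`. -/
def V : Type := {p : ℝ × OnePoint ℝ × ℝ // 0 ≤ p.2.2 ∧ (p.2.2 = 0 → ¬ slit p.1 p.2.1)}

instance : TopologicalSpace V := inferInstanceAs
  (TopologicalSpace {p : ℝ × OnePoint ℝ × ℝ // 0 ≤ p.2.2 ∧ (p.2.2 = 0 → ¬ slit p.1 p.2.1)})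

/-- elementary identifications: translation and side pairing at the bottom `h = 0`. -/
inductive VStep : V → V → Prop
  | T (p q : V) (hx : q.1.1 = p.1.1 + 1) (hf : q.1.2.1 = TT p.1.2.1) (hh : q.1.2.2 = p.1.2.2) :
      VStep p q
  | S (p q : V) (h1 : |p.1.1| ≤ 1 / 2) (hp : p.1.2.2 = 0) (hq : q.1.2.2 = 0)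
      (hx : q.1.1 = - p.1.1) (hf : q.1.2.1 = SS p.1.2.1) : VStep p q

/-- the same identifications, and every slit collapsed at every height `h > 0`. -/
inductive VStep' : V → V → Prop
  | base (p q : V) (h : VStep p q) : VStep' p q
  | C (p q : V) (k : Fin 54) (hk : cr k = true) (h1 : |p.1.1| ≤ 1 / 2) (h2 : |q.1.1| ≤ 1 / 2)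
      (hp : p.1.2.1 = ((lev k : ℝ) : OnePoint ℝ)) (hq : q.1.2.1 = ((lev k : ℝ) : OnePoint ℝ))
      (hh : q.1.2.2 = p.1.2.2) : VStep' p q

/-- the flag simplices: `μ 0 = μ_∞`, `μ 1 = μ_M`, `μ 2 = μ_B`, `μ 3 = μ_c`. -/
def W : Type := {p : Flag × (Fin 4 → ℝ) // (∀ i, 0 ≤ p.2 i) ∧ p.2 1 + p.2 2 + p.2 3 = 1 ∧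
  ¬ (p.2 0 = 0 ∧ p.2 3 = 1)}

instance : TopologicalSpace W := inferInstanceAs
  (TopologicalSpace {p : Flag × (Fin 4 → ℝ) // (∀ i, 0 ≤ p.2 i) ∧ p.2 1 + p.2 2 + p.2 3 = 1 ∧
    ¬ (p.2 0 = 0 ∧ p.2 3 = 1)})

/-- gluing of the flags along their facets. -/
def WStep (p q : W) : Prop := ∃ X : Fin 4, p.1.2 X = 0 ∧ q.1.1 = fl p.1.1 X ∧ q.1.2 = p.1.2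

end

end Pool.AML
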